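import Mathlib
import Pool.Agent.Y896.HS.Stm
import Pool.Agent.Y896.HS.B
import Pool.Agent.Helper472.Lat_CST1
import Pool.Agent.Helper472.Lat_CST2
import Pool.Agent.Helper472.Lat_TTL

/-!
# EGS for homogeneous spaces: the components of a closed subgroup
-/

open Matrix Filter Topology
open scoped Matrix.Norms.Frobenius ContDiff

namespace Pool.Agent.Y372.HS

open Pool.Agent.W544.EG (Mat LieAlg Gs BL IsLen)

variable {N : ℕ} {H : Subgroup (unitaryGroup (Fin N) ℂ)}

/-- a small element of `H` lies on a one-parameter group of `H` -/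
theorem path_comp {X : Mat N} (hX : X ∈ LieAlg H) {u : H}
    (hu : NormedSpace.exp X = ((u : unitaryGroup (Fin N) ℂ) : Mat N)) :
    u ∈ connectedComponent (1 : H) := by
  choose γ hγ hγe using hX
  have hc : Continuous (fun t : ℝ => (⟨γ t, hγ t⟩ : H)) := by
    refine Continuous.subtype_mk ?_ _
    refine continuous_induced_rng.2 ?_
    have h1 : ((Subtype.val : unitaryGroup (Fin N) ℂ → Mat N) ∘ γ) =
        fun t : ℝ => NormedSpace.exp (t • X) := funext fun t => hγe t
    rw [h1]
    exact (Pool.Agent.W544.EG.exp_cont (𝔸 := Mat N)).comp (continuous_id.smul continuous_const)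
  have h0 : (⟨γ 0, hγ 0⟩ : H) = 1 := by
    apply Subtype.ext
    apply Subtype.ext
    show (γ 0 : Mat N) = 1
    rw [hγe, zero_smul]
    exact Pool.Agent.W544.EG.exp_zero' (𝔸 := Mat N)
  have h1 : (⟨γ 1, hγ 1⟩ : H) = u := by
    apply Subtype.ext
    apply Subtype.ext
    show (γ 1 : Mat N) = _
    rw [hγe, one_smul]
    exact hu
  have h2 : IsPreconnected (Set.range fun t : ℝ => (⟨γ t, hγ t⟩ : H)) := isPreconnected_range hc
  exact h2.subset_connectedComponent ⟨0, h0⟩ ⟨1, h1⟩

theorem nhds_comp (hc : IsClosed (H : Set (unitaryGroup (Fin N) ℂ))) :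
    connectedComponent (1 : H) ∈ 𝓝 (1 : H) := by
  obtain ⟨O, hO, h⟩ := Pool.LatH472.CST2 Pool.LatH472.CST1 (Fin N) H hc Set.univ Filter.univ_mem
  have h1 : (Subtype.val : H → unitaryGroup (Fin N) ℂ) ⁻¹' O ∈ 𝓝 (1 : H) :=
    continuous_subtype_val.continuousAt.preimage_mem_nhds hO
  refine Filter.mem_of_superset h1 fun u hu => ?_
  obtain ⟨X, hX, -, hXu⟩ := h u u.2 hu
  exact path_comp (Pool.Agent.W345.EGT.mem_of_lat hX) hXu

/-- right translation of components -/
theorem comp_mul {x f y : H} (h : x ∈ connectedComponent f) :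
    x * y ∈ connectedComponent (f * y) :=
  (continuous_mul_const y).image_connectedComponent_subset f ⟨x, h, rfl⟩

theorem open_comp (hc : IsClosed (H : Set (unitaryGroup (Fin N) ℂ))) (x : H) :
    IsOpen (connectedComponent x) := by
  rw [isOpen_iff_mem_nhds]
  intro y hy
  rw [connectedComponent_eq hy]
  have h1 : Tendsto (fun z : H => z * y⁻¹) (𝓝 y) (𝓝 1) := by
    have := (continuous_mul_const (y⁻¹)).tendsto y
    rwa [mul_inv_cancel] at this
  refine Filter.mem_of_superset (h1 (nhds_comp hc)) fun z hz => ?_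
  have h2 := comp_mul (y := y) (show z * y⁻¹ ∈ connectedComponent (1 : H) from hz)
  rwa [inv_mul_cancel_right, one_mul] at h2

theorem compact_group (hc : IsClosed (H : Set (unitaryGroup (Fin N) ℂ))) : CompactSpace H := by
  have hU : CompactSpace (unitaryGroup (Fin N) ℂ) := Pool.LatH472.TTL_compact
  exact isCompact_iff_compactSpace.1 hc.isCompact

theorem finite_comp (hc : IsClosed (H : Set (unitaryGroup (Fin N) ℂ))) :
    Finite (ConnectedComponents H) := by
  have : DiscreteTopology (ConnectedComponents H) :=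
    ConnectedComponents.discreteTopology_iff.2 (open_comp hc)
  have := compact_group hc
  exact finite_of_compact_of_discrete

theorem exp_comp (hc : IsClosed (H : Set (unitaryGroup (Fin N) ℂ))) {y : H}
    (hy : y ∈ connectedComponent (1 : H)) :
    ∃ Z ∈ LieAlg H, NormedSpace.exp Z = ((y : unitaryGroup (Fin N) ℂ) : Mat N) := by
  have hcoe : (((Subgroup.connectedComponentOfOne H).map H.subtype :
      Subgroup (unitaryGroup (Fin N) ℂ)) : Set (unitaryGroup (Fin N) ℂ)) =
      (Subtype.val : H → unitaryGroup (Fin N) ℂ) '' connectedComponent (1 : H) := rfl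
  have h1 : IsClosed (((Subgroup.connectedComponentOfOne H).map H.subtype :
      Subgroup (unitaryGroup (Fin N) ℂ)) : Set (unitaryGroup (Fin N) ℂ)) := by
    rw [hcoe]
    exact hc.isClosedEmbedding_subtypeVal.isClosedMap _ isClosed_connectedComponent
  have h2 : IsConnected (((Subgroup.connectedComponentOfOne H).map H.subtype :
      Subgroup (unitaryGroup (Fin N) ℂ)) : Set (unitaryGroup (Fin N) ℂ)) := by
    rw [hcoe]
    exact isConnected_connectedComponent.image _ continuous_subtype_val.continuousOn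
  obtain ⟨X, hX, hXx⟩ := Pool.LatH472.TTL Pool.LatH472.CST1
    (Pool.LatH472.CST2 Pool.LatH472.CST1) (Fin N)
    ((Subgroup.connectedComponentOfOne H).map H.subtype) h1 h2
    (y : unitaryGroup (Fin N) ℂ) ⟨y, hy, rfl⟩
  refine ⟨X, fun t => ?_, hXx⟩
  obtain ⟨u, hu, hue⟩ := (Pool.Agent.W345.EGT.mem_of_lat hX) t
  obtain ⟨v, -, rfl⟩ := hu
  exact ⟨v, v.2, hue⟩

/-- **the components of a closed subgroup** -/
theorem t_CC : Pool.Agent.Y896.HS.S_CC := by
  classical
  intro N H hc
  have hfin := finite_comp hc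
  refine ⟨hfin, ?_⟩
  letI := Fintype.ofFinite (ConnectedComponents H)
  have hout : ∀ c : ConnectedComponents H, ∃ f : H, (f : ConnectedComponents H) = c :=
    fun c => ConnectedComponents.surjective_coe c
  choose r hr using hout
  refine ⟨Finset.univ.image fun c => ((r c : unitaryGroup (Fin N) ℂ) : Mat N), ?_, ?_, ?_⟩
  · refine Finset.card_image_le.trans ?_
    rw [Finset.card_univ, Nat.card_eq_fintype_card]
  · intro f hf
    obtain ⟨c, -, rfl⟩ := Finset.mem_image.1 hf
    exact ⟨r c, (r c).2, rfl⟩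
  · rintro _ ⟨u, hu, rfl⟩
    set x : H := ⟨u, hu⟩ with hx
    set f : H := r (x : ConnectedComponents H) with hf
    have h1 : connectedComponent x = connectedComponent f :=
      ConnectedComponents.coe_eq_coe.1 (hr (x : ConnectedComponents H)).symm
    have h2 : x ∈ connectedComponent f := by rw [← h1]; exact mem_connectedComponent
    have h3 := comp_mul (y := f⁻¹) h2
    rw [mul_inv_cancel] at h3
    obtain ⟨Z, hZ, hZe⟩ := exp_comp hc h3
    refine ⟨Z, hZ, _, Finset.mem_image_of_mem _ (Finset.mem_univ (x : ConnectedComponents H)), ?_⟩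
    have h4 : (x * f⁻¹) * f = x := inv_mul_cancel_right x f
    have h5 := congrArg (fun z : H => ((z : unitaryGroup (Fin N) ℂ) : Mat N)) h4
    rw [hZe]
    exact h5.symm

end Pool.Agent.Y372.HS
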